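import Mathlib

namespace Pool.Agent.Results.MP_fa793f_nt.Linear

open Polynomial Finset Filter UniqueFactorizationMonoid

variable {F K : Type} [Field F] [Field K] [Algebra F K]

/-- `S ∘ R`. -/
noncomputable def comp (S R : RatFunc F) : RatFunc F := aeval R S.num / aeval R S.denom

noncomputable def iter (R : RatFunc F) : ℕ → RatFunc F
  | 0 => RatFunc.X
  | n + 1 => comp (iter R n) R

/-- `S(x) = α` for `x, α` in the algebraic closure `K`. -/
def Val (S : RatFunc F) (x α : K) : Prop :=
  aeval x S.denom ≠ 0 ∧ aeval x S.num / aeval x S.denom = α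

def Critical (R : RatFunc F) (α : K) : Prop :=
  BddAbove (Set.range fun n => {x | Val (iter R n) x α}.ncard)

/-- `h ^ k * f (g / h)` for `R = g / h` in lowest terms. -/
noncomputable def hom (R : RatFunc F) (k : ℕ) (f : F[X]) : F[X] :=
  ∑ i ∈ range (k + 1), C (f.coeff i) * R.num ^ i * R.denom ^ (k - i)

noncomputable def tr (R : RatFunc F) (f : F[X]) : F[X] := hom R f.natDegree f

open Classical in
/-- The average degree of the distinct (monic) irreducible factors. -/
noncomputable def avg (f : F[X]) : ℝ :=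
  (∑ p ∈ (normalizedFactors f).toFinset, p.natDegree : ℕ) / #(normalizedFactors f).toFinset

def Lin (s : ℕ → F[X]) : Prop := ∃ c : ℝ, 0 < c ∧ ∀ᶠ n : ℕ in atTop, c * n ≤ avg (s n)

lemma hom_map {L : Type} [Field L] [Algebra F L] (φ : F[X] →ₐ[F] L) (R : RatFunc F) {k : ℕ}
    {f : F[X]} (hk : f.natDegree ≤ k) (h : φ R.denom ≠ 0) :
    φ (hom R k f) = φ R.denom ^ k * aeval (φ R.num / φ R.denom) f := by
  rw [aeval_eq_sum_range' (Nat.lt_succ_of_le hk), mul_sum, hom, map_sum]
  refine sum_congr rfl fun i hi => ?_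
  obtain ⟨j, rfl⟩ := Nat.exists_eq_add_of_le (Nat.le_of_lt_succ (mem_range.1 hi))
  rw [map_mul, map_mul, map_pow, map_pow, ← Polynomial.algebraMap_eq, AlgHom.commutes,
    Algebra.smul_def, Nat.add_sub_cancel_left, pow_add, div_pow]
  field_simp

lemma hom_pole (R : RatFunc F) (k : ℕ) (f : F[X]) {x : K}
    (h : aeval x R.denom = 0) :
    aeval x (hom R k f) = algebraMap _ _ (f.coeff k) * aeval x R.num ^ k := by
  rw [hom, sum_range_succ, map_add, map_sum, sum_eq_zero]
  · simp
  · intro i hi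
    simp [h, Nat.sub_ne_zero_of_lt (mem_range.1 hi)]

lemma hom_R (R : RatFunc F) {k : ℕ} {f : F[X]} (hk : f.natDegree ≤ k) :
    algebraMap _ (RatFunc F) (hom R k f) = algebraMap _ _ R.denom ^ k * aeval R f := by
  have := hom_map (IsScalarTower.toAlgHom F F[X] (RatFunc F)) R hk
    (RatFunc.algebraMap_ne_zero R.denom_ne_zero)
  simpa [R.num_div_denom] using this

lemma ae_ne {R : RatFunc F} (hR : ¬ ∃ c, R = RatFunc.C c) {f : F[X]} (hf : f ≠ 0) :
    aeval R f ≠ 0 := fun h => R.transcendental_of_ne_C hR ⟨f, hf, h⟩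

lemma hom_ne {R : RatFunc F} (hR : ¬ ∃ c, R = RatFunc.C c) {k : ℕ} {f : F[X]}
    (hk : f.natDegree ≤ k) (hf : f ≠ 0) : hom R k f ≠ 0 := fun h => by
  have := hom_R R hk
  rw [h, map_zero] at this
  exact mul_ne_zero (pow_ne_zero _ (RatFunc.algebraMap_ne_zero R.denom_ne_zero)) (ae_ne hR hf)
    this.symm

lemma cop (S : RatFunc F) (x : K) : aeval x S.num ≠ 0 ∨ aeval x S.denom ≠ 0 :=
  aeval_ne_zero_of_isCoprime S.isCoprime_num_denom x

lemma val_iff {S : RatFunc F} {x α : K} :
    Val S x α ↔ aeval x S.num = α * aeval x S.denom := by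
  refine ⟨fun h => (div_eq_iff h.1).1 h.2, fun h => ?_⟩
  have : aeval x S.denom ≠ 0 := fun e => by simpa [h, e] using cop S x
  exact ⟨this, (div_eq_iff this).2 h⟩

noncomputable def dg (S : RatFunc F) : ℕ := max S.num.natDegree S.denom.natDegree

lemma dg1 (S : RatFunc F) : S.num.natDegree ≤ dg S := le_max_left _ _

lemma dg2 (S : RatFunc F) : S.denom.natDegree ≤ dg S := le_max_right _ _

lemma comp_val {R : RatFunc F} (hR : ¬ ∃ c, R = RatFunc.C c) (S : RatFunc F)
    (x α : K) :
    (Val (comp S R) x α → aeval x (hom R (dg S) S.num) = α * aeval x (hom R (dg S) S.denom)) ∧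
    (aeval x (hom R (dg S) S.denom) ≠ 0 →
      aeval x (hom R (dg S) S.num) = α * aeval x (hom R (dg S) S.denom) → Val (comp S R) x α) := by
  have b : hom R (dg S) S.denom ≠ 0 := hom_ne hR (dg2 S) S.denom_ne_zero
  have e := (RatFunc.num_mul_eq_mul_denom_iff (x := comp S R) (p := hom R (dg S) S.num) b).2 (by
    rw [hom_R R (dg1 S), hom_R R (dg2 S), mul_div_mul_left _ _
      (pow_ne_zero _ (RatFunc.algebraMap_ne_zero R.denom_ne_zero)), comp])
  replace e := congrArg (aeval x) e
  rw [map_mul, map_mul] at e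
  refine ⟨fun h => mul_right_cancel₀ h.1 ?_, fun h h' => val_iff.2 (mul_right_cancel₀ h ?_)⟩
  · rw [← e, val_iff.1 h]; ring
  · rw [e, h']; ring

lemma val_comp {R : RatFunc F} (hR : ¬ ∃ c, R = RatFunc.C c) (S : RatFunc F)
    {x y : K} (h : Val R x y) (α : K) :
    Val (comp S R) x α ↔ Val S y α := by
  have := comp_val hR S x α
  rw [hom_map _ R (dg1 S) h.1, hom_map _ R (dg2 S) h.1, h.2] at this
  have p := pow_ne_zero (dg S) h.1
  refine ⟨fun e => val_iff.2 (mul_left_cancel₀ p ?_), fun e => this.2 (mul_ne_zero p e.1) ?_⟩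
  · rw [this.1 e]; ring
  · rw [val_iff.1 e]; ring

lemma top (S : RatFunc F) : S.num.coeff (dg S) ≠ 0 ∨ S.denom.coeff (dg S) ≠ 0 := by
  rcases lt_or_ge S.denom.natDegree S.num.natDegree with h | h
  · left
    rw [dg, max_eq_left h.le]
    exact leadingCoeff_ne_zero.2 fun e => by simp [e] at h
  · right
    rw [dg, max_eq_right h]
    exact leadingCoeff_ne_zero.2 S.denom_ne_zero

lemma val_pole {R : RatFunc F} (hR : ¬ ∃ c, R = RatFunc.C c) (S : RatFunc F)
    {x α : K} (h : aeval x R.denom = 0) (e : Val (comp S R) x α) :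
    α ∈ Set.range (algebraMap F _) := by
  have := (comp_val hR S x α).1 e
  rw [hom_pole _ _ _ h, hom_pole _ _ _ h, ← mul_assoc] at this
  replace this := mul_right_cancel₀ (pow_ne_zero _ ((cop R x).resolve_right fun e => e h)) this
  have b : S.denom.coeff (dg S) ≠ 0 := fun e => by simpa [e] using (top S).imp_left fun t =>
    (by simp [e, t] at this : False)
  exact ⟨S.num.coeff (dg S) / S.denom.coeff (dg S), by rw [map_div₀, this]; simp [b]⟩

lemma comp_nc {R S : RatFunc F} (hR : ¬ ∃ c, R = RatFunc.C c) (hS : ¬ ∃ c, S = RatFunc.C c) :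
    ¬ ∃ c, comp S R = RatFunc.C c := by
  rintro ⟨c, h⟩
  rw [comp, div_eq_iff (ae_ne hR S.denom_ne_zero)] at h
  have : S.num - C c * S.denom = 0 := by
    by_contra e
    exact ae_ne hR e (by simp [h])
  refine hS ⟨c, ?_⟩
  rw [← S.num_div_denom, div_eq_iff (RatFunc.algebraMap_ne_zero S.denom_ne_zero),
    sub_eq_zero.1 this]
  simp

lemma iter_nc {R : RatFunc F} (hR : ¬ ∃ c, R = RatFunc.C c) (n : ℕ) :
    ¬ ∃ c, iter R n = RatFunc.C c := by
  induction n with
  | zero =>
    rintro ⟨c, h⟩
    simpa [iter] using congrArg RatFunc.intDegree h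
  | succ n ih => exact comp_nc hR ih

def Two (S : RatFunc F) (y : K) : Prop := ∃ x z, x ≠ z ∧ Val S x y ∧ Val S z y

lemma two [IsAlgClosed K] {S : RatFunc F} (hS : ¬ ∃ c, S = RatFunc.C c) {y₀ : K}
    (h : Two S y₀) : {y : K | ¬ Two S y}.Finite := by
  obtain ⟨x₀, z₀, ne, hx, hz⟩ := h
  let φ := algebraMap F K
  let g := S.num.map φ
  let h := S.denom.map φ
  let D := dg S
  let a := g.coeff D
  let b := h.coeff D
  have v : ∀ {x y}, Val S x y ↔ g.eval x = y * h.eval x := by simp [val_iff, g, h, φ]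
  have D0 : D ≠ 0 := fun e => hS ⟨S.num.coeff 0 / S.denom.coeff 0, by
    rw [map_div₀, ← RatFunc.algebraMap_C, ← RatFunc.algebraMap_C,
      ← eq_C_of_natDegree_eq_zero (Nat.eq_zero_of_le_zero (e ▸ dg1 S)),
      ← eq_C_of_natDegree_eq_zero (Nat.eq_zero_of_le_zero (e ▸ dg2 S)), S.num_div_denom]⟩
  have nz : ∀ y, g - C y * h ≠ 0 := fun y e => by
    have u : IsUnit h := (S.isCoprime_num_denom.map (mapRingHom φ)).isUnit_of_dvd'
      ⟨C y, (sub_eq_zero.1 e).trans (mul_comm _ _)⟩ dvd_rfl
    have a := natDegree_eq_zero_of_isUnit u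
    have b : g.natDegree = 0 := by
      rw [sub_eq_zero.1 e]; exact Nat.eq_zero_of_le_zero ((natDegree_C_mul_le _ _).trans a.le)
    simp only [g, h, natDegree_map] at a b
    exact D0 (by simp [D, dg, a, b])
  by_contra inf
  have i2 : {y | ¬ Two S y ∧ a - y * b ≠ 0}.Infinite := by
    refine (Set.Infinite.sdiff inf (Set.Subsingleton.finite (s := {y | a - y * b = 0}) ?_)).mono
      fun y hy => hy
    intro y hy z hz
    by_contra e
    have b0 : b = 0 := mul_left_cancel₀ (sub_ne_zero.2 e) (by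
      rw [Set.mem_ofPred] at hy hz; linear_combination hz - hy)
    have a0 : a = 0 := by simpa [b0] using hy
    simpa [a, b, g, h, D] using (top S).elim (fun t => t (by simpa [a, g] using a0))
      fun t => t (by simpa [b, h] using b0)
  have key : ∀ y, ¬ Two S y ∧ a - y * b ≠ 0 → ∃ x, Val S x y ∧
      g - C y * h = C (a - y * b) * (X - C x) ^ D := by
    rintro y ⟨t, e⟩
    have co : (g - C y * h).coeff D = a - y * b := by simp [a, b]
    have dd : (g - C y * h).natDegree = D := natDegree_eq_of_le_of_coeff_ne_zero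
      ((natDegree_sub_le _ _).trans (max_le (natDegree_map_le.trans (dg1 S))
        ((natDegree_C_mul_le _ _).trans (natDegree_map_le.trans (dg2 S))))) (co ▸ e)
    have sp := IsAlgClosed.splits (g - C y * h)
    have rt : ∀ x ∈ (g - C y * h).roots, Val S x y := fun x hx =>
      v.2 (by simpa [sub_eq_zero] using isRoot_of_mem_roots hx)
    obtain ⟨x, hx⟩ := Multiset.exists_mem_of_ne_zero (sp.roots_ne_zero (dd ▸ D0))
    refine ⟨x, rt x hx, ?_⟩
    have := Multiset.eq_replicate_of_mem (s := (g - C y * h).roots) (a := x) fun z hz => by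
      by_contra n
      exact t ⟨z, x, n, rt z hz, rt x hx⟩
    rw [← sp.natDegree_eq_card_roots, dd] at this
    rw [sp.eq_prod_roots, this, leadingCoeff, dd, co]
    simp
  choose! r hr using key
  have Q : ∀ z, g * C (h.eval z) - C (g.eval z) * h - (g * C b - h * C a) * (C z - X) ^ D = 0 := by
    intro z
    refine eq_zero_of_infinite_isRoot _ ((i2.image (f := r) fun y hy y' hy' e => ?_).mono ?_)
    · exact (hr y hy).1.2.symm.trans (e ▸ (hr y' hy').1.2)
    · rintro _ ⟨y, hy, rfl⟩
      have e := congrArg (eval z) (hr y hy).2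
      have e' := v.1 (hr y hy).1
      simp only [eval_sub, eval_mul, eval_C, eval_pow, eval_X, Set.mem_ofPred, IsRoot.def] at e ⊢
      rw [e']
      linear_combination -eval (r y) h * e
  have Q' := fun z => congrArg (eval x₀) (Q z)
  simp only [eval_sub, eval_mul, eval_C, eval_pow, eval_X, eval_zero, v.1 hx] at Q'
  have h0 : h.eval x₀ ≠ 0 := by simpa [h, φ] using hx.1
  have c0 : y₀ * h.eval x₀ * b - h.eval x₀ * a = 0 := by
    have := Q' z₀
    rw [v.1 hz] at this
    exact (mul_eq_zero.1 (by linear_combination -this)).resolve_right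
      (pow_ne_zero D (sub_ne_zero.2 ne.symm))
  refine nz y₀ (Polynomial.funext fun z => mul_left_cancel₀ h0 ?_)
  have := Q' z
  rw [c0] at this
  simp only [eval_sub, eval_mul, eval_C, eval_zero]
  linear_combination -this

lemma val_fun {S : RatFunc F} {x y z : K} (a : Val S x y) (b : Val S x z) :
    y = z := a.2.symm.trans b.2

lemma poles (S : RatFunc F) : {x : K | aeval x S.denom = 0}.Finite :=
  (S.denom.rootSet_finite _).subset fun _ hx => (mem_rootSet_of_ne S.denom_ne_zero).2 hx

lemma inj [IsAlgClosed K] {R : RatFunc F} (hR : ¬ ∃ c, R = RatFunc.C c) (h : ∀ y : K, ¬ Two R y) (n : ℕ) :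
    ∀ y : K, ¬ Two (iter R n) y := by
  induction n with
  | zero =>
    rintro y ⟨x, z, ne, a, b⟩
    exact ne (by simpa [iter] using a.2.trans b.2.symm)
  | succ n ih =>
    intro y t
    obtain ⟨w, hw⟩ := ((two (iter_nc hR _) t).union ((poles R).image fun x =>
      aeval x (iter R (n + 1)).num / aeval x (iter R (n + 1)).denom)).infinite_compl.nonempty
    simp only [Set.mem_compl_iff, Set.mem_union, not_or, Set.mem_ofPred, not_not, Set.mem_image,
      not_exists, not_and] at hw
    obtain ⟨⟨x, z, ne, a, b⟩, p⟩ := hw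
    have x1 : Val R x _ := ⟨fun e => p x e a.2, rfl⟩
    have z1 : Val R z _ := ⟨fun e => p z e b.2, rfl⟩
    refine h _ ⟨x, z, ne, x1, ?_⟩
    by_contra e
    exact ih w ⟨_, _, fun e' => e (by rw [e']; exact z1), (val_comp hR _ x1 w).1 a, (val_comp hR _ z1 w).1 b⟩

lemma grow (R : RatFunc F) (Y : ℕ → Set K) (hY : ∀ n, (Y n).Finite)
    (B : Set K) (hB : B.Finite) (h : ∀ n, ∀ y ∈ Y n, y ∉ B → ∃ x ∈ Y (n + 1),
      ∃ z ∈ Y (n + 1), x ≠ z ∧ Val R x y ∧ Val R z y) (n : ℕ) (hn : 2 * B.ncard < (Y n).ncard)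
    (j : ℕ) : 2 ^ j + 2 * B.ncard ≤ (Y (n + j)).ncard := by
  classical
  induction j with
  | zero => rw [pow_zero, add_zero]; omega
  | succ j ih =>
    have a := card_mul_le_card_mul (s := ((hY (n + j)).sdiff (t := B)).toFinset)
      (t := (hY (n + j + 1)).toFinset) (m := 2) (n := 1) (fun y x => Val R x y) (fun y hy => by
        obtain ⟨x, hx, z, hz, ne, a, b⟩ := h (n + j) y (by simp_all) (by simp_all)
        exact one_lt_card.2 ⟨x, by simp [*], z, by simp [*], ne⟩)
      fun x _ => card_le_one.2 fun y hy z hz => val_fun (mem_filter.1 hy).2 (mem_filter.1 hz).2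
    rw [← Set.ncard_eq_toFinset_card _ (hY _), ← Set.ncard_eq_toFinset_card _ (hY _).sdiff] at a
    have b := Set.le_ncard_sdiff B (Y (n + j)) hB
    rw [← add_assoc, pow_succ]
    omega

lemma count [Finite F] {s : F[X]} (hs : s ≠ 0) (m : ℕ)
    (h : 2 ^ ((Nat.card F + 1) * m) ≤ (s.rootSet K).ncard) :
    (m : ℝ) / 2 ≤ avg s := by
  classical
  let P := (normalizedFactors s).toFinset
  have ir : ∀ p ∈ P, Irreducible p := fun p hp =>
    irreducible_of_normalized_factor p (Multiset.mem_toFinset.1 hp)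
  have a : (s.rootSet K).ncard ≤ ∑ p ∈ P, p.natDegree := by
    refine (Set.ncard_le_ncard (t := ⋃ p ∈ P, p.rootSet _) (fun x hx => ?_)
      (P.finite_toSet.biUnion fun p _ => p.rootSet_finite _)).trans
      ((P.set_ncard_biUnion_le _).trans (sum_le_sum fun p _ => ncard_rootSet_le _ _))
    have := (map_dvd (aeval x) (prod_normalizedFactors hs).symm.dvd)
    rw [aeval_eq_zero_of_mem_rootSet hx, zero_dvd_iff, map_multiset_prod,
      Multiset.prod_eq_zero_iff, Multiset.mem_map] at this
    obtain ⟨p, hp, e⟩ := this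
    have := Multiset.mem_toFinset.2 hp
    exact Set.mem_biUnion this ((mem_rootSet_of_ne (ir p this).ne_zero).2 e)
  have b : #{p ∈ P | p.natDegree < m} ≤ Nat.card F ^ m := by
    have := Fintype.ofFinite F
    rw [Nat.card_eq_fintype_card, ← Fintype.card_fin m, ← Fintype.card_fun, Fintype.card_fin]
    refine card_le_card_of_injOn (fun p (i : Fin m) => p.coeff i) (by simp) fun p hp q hq e => ?_
    ext i
    by_cases hi : i < m
    · exact congrFun e ⟨i, hi⟩
    · rw [coeff_eq_zero_of_natDegree_lt ((mem_filter.1 hp).2.trans_le (not_lt.1 hi)),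
        coeff_eq_zero_of_natDegree_lt ((mem_filter.1 hq).2.trans_le (not_lt.1 hi))]
  have c : #{p ∈ P | ¬ p.natDegree < m} * m ≤ ∑ p ∈ P, p.natDegree :=
    (card_nsmul_le_sum _ _ _ fun p hp => not_lt.1 (mem_filter.1 hp).2).trans
      (sum_le_sum_of_subset (filter_subset _ _))
  have d := card_filter_add_card_filter_not (s := P) fun p => p.natDegree < m
  have e : Nat.card F ^ m * m ≤ 2 ^ ((Nat.card F + 1) * m) := by
    rw [add_mul, pow_add, pow_mul, one_mul]
    exact Nat.mul_le_mul (Nat.pow_le_pow_left Nat.lt_two_pow_self.le _) Nat.lt_two_pow_self.le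
  have f : #P * m ≤ 2 * ∑ p ∈ P, p.natDegree := by
    have := Nat.mul_le_mul_right m b
    rw [← d, add_mul]; omega
  have g : 0 < #P := card_pos.2 (nonempty_of_sum_ne_zero
    (((Nat.two_pow_pos _).trans_le (h.trans a)).ne'))
  have : avg s = (∑ p ∈ P, p.natDegree : ℕ) / #P := by unfold avg; congr!
  rw [this, div_le_div_iff₀ two_pos (by exact_mod_cast g)]
  exact_mod_cast (mul_comm _ _).trans_le (f.trans_eq (mul_comm _ _))

lemma lin [Finite F] [IsAlgClosed K] {R : RatFunc F} (hR : ¬ ∃ c, R = RatFunc.C c) {α : K}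
    (hα : ¬ Critical R α) {s : ℕ → F[X]} (hs : ∀ n, s n ≠ 0)
    (h : ∀ n x, Val (iter R n) x α → aeval x (s n) = 0) : Lin s := by
  have sub : ∀ n, {x | Val (iter R n) x α} ⊆ (s n).rootSet _ := fun n x hx =>
    (mem_rootSet_of_ne (hs n)).2 (h n x hx)
  obtain ⟨y, hy⟩ : ∃ y : K, Two R y := by
    by_contra e
    refine hα ⟨1, ?_⟩
    rintro _ ⟨n, rfl⟩
    refine (Set.ncard_le_one (((s n).rootSet_finite _).subset (sub n))).2 fun x hx z hz => ?_
    by_contra ne
    exact inj hR (not_exists.1 e) n α ⟨x, z, ne, hx, hz⟩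
  obtain ⟨_, ⟨n, rfl⟩, hn⟩ := not_bddAbove_iff.1 hα (2 * {y : K | ¬ Two R y}.ncard)
  have g := grow R (fun n => {x | Val (iter R n) x α})
    (fun n => ((s n).rootSet_finite _).subset (sub n)) _ (two hR hy) (fun n y hy t => by
      obtain ⟨x, z, ne, a, b⟩ := not_not.1 t
      exact ⟨x, (val_comp hR _ a α).2 hy, z, (val_comp hR _ b α).2 hy, ne, a, b⟩) n hn
  let q := Nat.card F + 1
  refine ⟨1 / (4 * q), by positivity, ?_⟩
  filter_upwards [eventually_ge_atTop (2 * (n + q))] with k hk
  obtain ⟨j, rfl⟩ := Nat.exists_eq_add_of_le (show n ≤ k by omega)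
  refine le_trans ?_ (count (hs _) (j / q) ((Nat.pow_le_pow_right two_pos
    (Nat.mul_div_le _ _)).trans ((le_self_add.trans (g j)).trans
      (Set.ncard_le_ncard (sub _) (rootSet_finite _ _)))))
  have a := Nat.lt_mul_div_succ j (show 0 < q by omega)
  have b : ((n + j : ℕ) : ℝ) ≤ 2 * (q * (j / q : ℕ)) := by
    rw [mul_add] at a
    exact_mod_cast (by omega : n + j ≤ 2 * (q * (j / q)))
  have : (0 : ℝ) < q := by positivity
  rw [div_mul_eq_mul_div, div_le_div_iff₀ (by positivity) two_pos]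
  linarith

lemma ex : ∃ R : RatFunc (ZMod 2), R.num = X ∧ R.denom = X ^ 2 + 1 := by
  have m : (X ^ 2 + 1 : (ZMod 2)[X]).Monic := by monicity!
  let R : RatFunc (ZMod 2) := algebraMap (ZMod 2)[X] _ X / algebraMap (ZMod 2)[X] _ (X ^ 2 + 1)
  have e := (RatFunc.num_mul_eq_mul_denom_iff (x := R) m.ne_zero).2 rfl
  have d : R.denom = X ^ 2 + 1 := eq_of_monic_of_associated R.monic_denom m
    (associated_of_dvd_dvd (RatFunc.denom_div_dvd _ _) (IsCoprime.dvd_of_dvd_mul_left
      (y := X) ⟨1, -X, by ring⟩ ⟨R.num, by rw [← e, mul_comm]⟩))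
  exact ⟨R, mul_right_cancel₀ m.ne_zero (by rw [e, d]), d⟩

theorem result :
    (∀ (F K : Type) [Field F] [Finite F] [Field K] [Algebra F K] [IsAlgClosure F K]
      (R : RatFunc F) (f : F[X]) (α : K),
      1 ≤ max R.num.natDegree R.denom.natDegree → 0 < f.natDegree → aeval α f = 0 →
      ¬ Critical R α → Lin (fun n => tr (iter R n) f) ∧
        (α ∉ Set.range (algebraMap F K) → Lin fun n => (tr R)^[n] f)) ∧
    ∃ R : RatFunc (ZMod 2), R.num = X ∧ R.denom = X ^ 2 + 1 ∧ (¬ Lin fun n => (tr R)^[n] X) ∧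
      ∀ (K : Type) [Field K] [Algebra (ZMod 2) K] [IsAlgClosure (ZMod 2) K],
        ¬ Critical R (0 : K) := by
  have nc : ∀ (F : Type) [Field F] (R : RatFunc F), 1 ≤ max R.num.natDegree R.denom.natDegree →
      ¬ ∃ c, R = RatFunc.C c := by
    rintro F _ _ h ⟨c, rfl⟩
    simp at h
  refine ⟨fun F K _ _ _ _ _ R f α hR hf r hα => ?_, ?_⟩
  · have := IsAlgClosure.isAlgClosed F (K := K)
    have hR := nc F R hR
    have f0 : f ≠ 0 := fun e => by simp [e] at hf
    refine ⟨lin hR hα (fun n => hom_ne (iter_nc hR n) le_rfl f0) fun n x h => by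
      rw [tr, hom_map _ _ le_rfl h.1, h.2, r, mul_zero], fun hn => lin hR hα (fun n => ?_)
      fun n => ?_⟩
    · induction n with
      | zero => exact f0
      | succ n ih => rw [Function.iterate_succ_apply']; exact hom_ne hR le_rfl ih
    · induction n with
      | zero =>
        intro x h
        obtain rfl : x = α := by simpa [iter] using h.2
        exact r
      | succ n ih =>
        intro x h
        have a : Val R x _ := ⟨fun e => hn (val_pole hR _ e h), rfl⟩
        rw [Function.iterate_succ_apply', tr, hom_map _ _ le_rfl a.1,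
          ih _ ((val_comp hR _ a α).1 h), mul_zero]
  · obtain ⟨R, g, h⟩ := ex
    have d2 : (X ^ 2 + 1 : (ZMod 2)[X]).natDegree = 2 := by compute_degree!
    have hR := nc _ R (by simp [g])
    refine ⟨R, g, h, ?_, fun K _ _ _ => ?_⟩
    swap
    · have := IsAlgClosure.isAlgClosed (ZMod 2) (K := K)
      have : CharP K 2 := charP_of_injective_algebraMap (algebraMap (ZMod 2) K).injective 2
      have fin : ∀ n, {x : K | Val (iter R n) x 0}.Finite := fun n =>
        ((iter R n).num.rootSet_finite _).subset fun x hx => (mem_rootSet_of_ne fun e =>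
          iter_nc hR n ⟨0, by simpa using e⟩).2 (by simpa using val_iff.1 hx)
      have c2 : (1 : K) + 1 = 0 := CharTwo.add_self_eq_zero 1
      have o : Val (iter R 2) (1 : K) 0 := by
        have p : aeval (1 : K) R.denom = 0 := by simp [h, c2]
        have := (comp_val hR R (1 : K) 0).2
        rw [hom_pole _ _ _ p, hom_pole _ _ _ p, dg, g, h, d2] at this
        simpa [iter, comp] using this (by simp [coeff_one]) (by simp [coeff_X])
      have gr := grow R (fun n => {x : K | Val (iter R (n + 2)) x 0} \ {0})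
        (fun n => (fin _).sdiff) ∅ Set.finite_empty (fun n y hy _ => by
          have y0 : y ≠ 0 := hy.2
          obtain ⟨x, hx⟩ := IsAlgClosed.exists_root (C y * X ^ 2 - X + C y) (by
            have : (C y * X ^ 2 - X + C y).degree = 2 := by compute_degree!
            simp [this])
          simp only [IsRoot.def, eval_add, eval_sub, eval_mul, eval_C, eval_pow, eval_X] at hx
          have x0 : x ≠ 0 := fun e => y0 (by simpa [e] using hx)
          have a : Val R x y := val_iff.2 (by simp [g, h]; linear_combination -hx)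
          have b : Val R x⁻¹ y := val_iff.2 (by simp [g, h]; field_simp; linear_combination -hx)
          refine ⟨x, ⟨(val_comp hR _ a 0).2 hy.1, x0⟩, x⁻¹, ⟨(val_comp hR _ b 0).2 hy.1,
            inv_ne_zero x0⟩, fun e => x0 ?_, a, b⟩
          have : x * x = 1 := by nth_rw 2 [e]; exact mul_inv_cancel₀ x0
          linear_combination -hx + y * this + y * c2) 0
        (by simpa using (Set.ncard_pos (fin _).sdiff).2 ⟨1, o, one_ne_zero⟩)
      rintro ⟨b, hb⟩
      have := (gr b).trans ((Set.ncard_le_ncard Set.sdiff_subset (fin _)).trans (hb ⟨_, rfl⟩))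
      exact (b.lt_two_pow_self.trans_le le_self_add).not_ge this
    · rintro ⟨c, c0, hc⟩
      have t : tr R X = X := by simp [tr, hom, g, coeff_X]
      have a : avg (X : (ZMod 2)[X]) = 1 := by
        simp [avg, normalizedFactors_irreducible irreducible_X, monic_X.normalize_eq_self]
      simp only [Function.iterate_fixed t, a] at hc
      obtain ⟨n, h1, h2⟩ := (hc.and ((tendsto_natCast_atTop_atTop.const_mul_atTop
        c0).eventually_gt_atTop 1)).exists
      exact h1.not_gt h2

end Pool.Agent.Results.MP_fa793f_nt.Linear
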